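import Pool.Agent.ZES.StmtsG

/-!
# ZES squad, row GOU: the output of block G
-/

set_option autoImplicit false

open Filter Topology

namespace Pool.Agent.ZES.H71

open Pool.Agent.ZES

theorem zero_of_real {g : ℂ → ℂ} (hg : Differentiable ℂ g) (h : ∀ t : ℝ, g (t : ℂ) = 0) :
    ∀ c : ℂ, g c = 0 := by
  have h1 : AnalyticOnNhd ℂ g Set.univ := fun z _ => hg.analyticAt z
  have h2 : AnalyticOnNhd ℂ (fun _ : ℂ => (0 : ℂ)) Set.univ := fun z _ => analyticAt_const
  have h3 : Tendsto (fun n : ℕ => (((1 / ((n : ℝ) + 1) : ℝ)) : ℂ)) atTop (𝓝[≠] (0 : ℂ)) := by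
    refine tendsto_nhdsWithin_iff.2 ⟨?_, Eventually.of_forall fun n => ?_⟩
    · have h4 := (Complex.continuous_ofReal.tendsto (0 : ℝ)).comp
        (tendsto_one_div_add_atTop_nhds_zero_nat (𝕜 := ℝ))
      rw [Complex.ofReal_zero] at h4
      exact h4
    · have h5 : (0 : ℝ) < 1 / ((n : ℝ) + 1) := by positivity
      show (((1 / ((n : ℝ) + 1) : ℝ)) : ℂ) ∈ ({0}ᶜ : Set ℂ)
      rw [Set.mem_compl_iff, Set.mem_singleton_iff, Complex.ofReal_eq_zero]
      exact h5.ne'
  have h4 : ∃ᶠ z in 𝓝[≠] (0 : ℂ), g z = (fun _ : ℂ => (0 : ℂ)) z :=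
    h3.frequently (Frequently.of_forall fun n => h _)
  have h5 := AnalyticOnNhd.eq_of_frequently_eq h1 h2 h4
  intro c
  rw [h5]

theorem gou (hPwd : PwdStmt) (hZgr : ZgrStmt) (hLnz : LnzStmt) : GouStmt := by
  intro V _ _ E hE Γ m hm hS
  obtain ⟨Z, hZ, hcl, hΓ, hF⟩ := hZgr V E hE Γ m hm hS
  have hmem : ∀ x, x ∈ Z ↔ x ∈ Zr E (Γ : Set V) m := by
    intro x
    rw [← hZ]
    exact Iff.rfl
  have hdif : ∀ f ∈ E ^ m ⊓ Van (Γ : Set V), Differentiable ℂ f :=
    fun f hf => (hPwd V E hE m).1 f hf.1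
  let W : Submodule ℂ V :=
    { carrier := {w | ∀ c : ℂ, c • w ∈ Z}
      add_mem' := by
        intro a b ha hb c
        rw [smul_add]
        exact Z.add_mem (ha c) (hb c)
      zero_mem' := by
        intro c
        rw [smul_zero]
        exact Z.zero_mem
      smul_mem' := by
        intro d w hw c
        rw [smul_smul]
        exact hw (c * d) }
  have hW : ∀ w, w ∈ W ↔ ∀ c : ℂ, c • w ∈ Z := fun w => Iff.rfl
  refine ⟨Z, W, hZ, hcl, hΓ, hF, hW, ?_, ?_⟩
  · intro z hz v
    constructor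
    · intro h
      rw [hW]
      intro c
      have h1 := hLnz V E hE Γ m hm hS v z ((hmem z).1 hz) h 0 ((hmem 0).1 Z.zero_mem) c
      rw [zero_add] at h1
      exact (hmem _).2 h1
    · intro hv f hf
      have h1 : ∀ c : ℂ, f (z + c • v) = 0 := by
        intro c
        exact (hmem _).1 (Z.add_mem hz ((hW v).1 hv c)) f hf
      have h2 : HasDerivAt (fun c : ℂ => z + c • v) v 0 := by
        have h3 : HasDerivAt (fun c : ℂ => c • v) ((1 : ℂ) • v) 0 :=
          (hasDerivAt_id (0 : ℂ)).smul_const v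
        rw [one_smul] at h3
        exact h3.const_add z
      have h4 : HasFDerivAt f (fderiv ℂ f z) (z + (0 : ℂ) • v) := by
        rw [zero_smul, add_zero]
        exact (hdif f hf z).hasFDerivAt
      have h5 : HasDerivAt (fun c : ℂ => f (z + c • v)) (fderiv ℂ f z v) 0 :=
        h4.comp_hasDerivAt (0 : ℂ) h2
      have h6 : HasDerivAt (fun c : ℂ => f (z + c • v)) 0 0 := by
        have h7 : (fun c : ℂ => f (z + c • v)) = fun _ => (0 : ℂ) := funext h1
        rw [h7]
        exact hasDerivAt_const 0 0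
      exact h5.unique h6
  · intro v hv
    rw [hW]
    intro c
    refine (hmem _).2 ?_
    intro f hf
    have h1 : Differentiable ℂ (fun t : ℂ => f (t • v)) :=
      (hdif f hf).comp (differentiable_id.smul_const v)
    exact zero_of_real h1 (fun t => (hmem _).1 (hv t) f hf) c

end Pool.Agent.ZES.H71
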